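import Pool.Agent.Results.MP_a793bb_nt.AllThinSetsAtOnce
import Pool.Agent.V11326.WOD
import Pool.Agent.V11326.WCt
import Pool.Agent.V11326.WCp

/-!
# The abc inequality for ALL points, of whatever height, with radicals in windows, on all split thin sets at once

Let `K` be a number field of degree `d`, `D ≥ 1`, `q ≥ 3` and `M > D / q`. Let `v_n ≥ 1` be a sequence, for example
`v_n = 2 ^ n`. For all real `β` outside a set `F` of Hausdorff dimension less than one (and of measure zero) the following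
holds for ALL rational maps `f : t ↦ (P 0 (t) : P 1 (t) : P 2 (t))` of degree `D` from the projective line to the line
`a + b + c = 0` over `K` all of whose `q` points over the three points with `abc = 0` are `K`-rational, ALL finite sets
`T` of primes of `K` and all real `c`: if `n` is large, ALL points `x = f(t)` with nonzero coordinates, of whatever height,
with `|exp (2 d rad_T(x) / q) - β v_n| ≤ v_n ^ θ` satisfy `h(x) < M rad_T(x) + c`. For `D = 1`, `q = 3` these are all points
of the line `a + b + c = 0` with `abc ≠ 0`, and `M > 1/3` is arbitrary; always `D / q ≤ 1 - 2 / q < 1`, so that `M = 1` is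
allowed.

The proof combines the starting result `AllThinSetsAtOnce` with a covering argument. The definitions of `zeros`, `rad`,
`height`, `Data` and `coordinates` are those of that file.
-/

set_option autoImplicit false

namespace Pool.Agent.Results.MP_a793bb_nt.ConductorWindows

open NumberField IsDedekindDomain Polynomial MeasureTheory
open Pool.Agent.Results.MP_a793bb_nt.AllThinSetsAtOnce

variable {K : Type} [Field K] [NumberField K]

/-- The exponent of convergence of the sequence `v` is at most `τ`: the sum of the `v_n ^ (-p)` converges for all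
`p > τ`. -/
def ExpLe (v : ℕ → ℝ) (τ : ℝ) : Prop := ∀ p : ℝ, τ < p → Summable fun n => (v n) ^ (-p)

/-- `t ↦ (P 0 (t) : P 1 (t) : P 2 (t))` is a map to the line `a + b + c = 0`, given by nonzero coprime polynomials of
maximal degree `D`, all of whose zeros are in `K`; `q` is the number of the points over the points with `abc = 0`. -/
structure IsMap (D q : ℕ) (P : Fin 3 → K[X]) : Prop where
  ne_zero : ∀ i, P i ≠ 0
  sum_zero : P 0 + P 1 + P 2 = 0
  coprime : IsCoprime (P 0) (P 1)
  splits : ∀ i, (P i).Splits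
  degree_le : ∀ i, (P i).natDegree ≤ D
  degree_eq : ∃ i, (P i).natDegree = D
  points : zeros D P = q

theorem rad_smul (T : Set (HeightOneSpectrum (𝓞 K))) (c : K) (hc : c ≠ 0) (x : Fin 3 → K) : rad T (c • x) = rad T x := by
  unfold rad
  have e : {v : HeightOneSpectrum (𝓞 K) | v ∉ T ∧ ∃ i j, v.valuation K ((c • x) i) ≠ v.valuation K ((c • x) j)} =
      {v : HeightOneSpectrum (𝓞 K) | v ∉ T ∧ ∃ i j, v.valuation K (x i) ≠ v.valuation K (x j)} := by
    ext v
    have h0 : v.valuation K c ≠ 0 := (Valuation.ne_zero_iff _).2 hc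
    simp only [Set.mem_ofPred_eq, Pi.smul_apply, smul_eq_mul, map_mul]
    refine and_congr_right fun _ => exists_congr fun i => exists_congr fun j => ?_
    exact not_congr (mul_right_inj' h0)
  rw [e]

theorem countable_polys : Countable (Fin 3 → K[X]) := by
  have := Pool.Agent.V11326.WCt.countable_field K
  have := Pool.Agent.V11326.WCp.poly_countable K
  infer_instance

theorem result (K : Type) [Field K] [NumberField K] (D q : ℕ) (hD : 1 ≤ D) (hq : 3 ≤ q) (M : ℝ) (hM : (D : ℝ) / q < M) :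
    ∃ ν : ℝ, 0 < ν ∧ ν ≤ 1 ∧ ∀ (v : ℕ → ℝ) (τ θ : ℝ), (∀ n, 1 ≤ v n) → 0 ≤ τ → ExpLe v τ → θ < 1 →
      ∃ F : Set ℝ, dimH F ≤ ENNReal.ofReal ((1 - ν + τ) / (1 - θ)) ∧ (τ + θ < ν → volume F = 0) ∧
        ∀ β : ℝ, β ∉ F → ∀ P : Fin 3 → K[X], IsMap D q P → ∀ (T : Finset (HeightOneSpectrum (𝓞 K))) (c : ℝ),
          ∃ n₀ : ℕ, ∀ n : ℕ, n₀ ≤ n → ∀ t : Option K, (∀ i, coordinates D P t i ≠ 0) →
            |Real.exp (2 * (Module.finrank ℚ K : ℝ) / q *
              rad (T : Set (HeightOneSpectrum (𝓞 K))) (coordinates D P t)) - β * v n| ≤ (v n) ^ θ →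
            height (coordinates D P t) < M * rad (T : Set (HeightOneSpectrum (𝓞 K))) (coordinates D P t) + c := by
  obtain ⟨-, -, h2, -⟩ := AllThinSetsAtOnce.result K D q hD hq
  obtain ⟨η, ν, hη, hν, hE⟩ := h2 M hM
  have hd : (0 : ℝ) < Module.finrank ℚ K := by exact_mod_cast (Module.finrank_pos (R := ℚ) (M := K))
  have hq0 : (0 : ℝ) < q := by exact_mod_cast (by omega : 0 < q)
  have hC : ∀ c : ℝ, ∃ C : ℝ, ∀ X : ℝ, 1 ≤ X → (Exceptions K D q η M c X).Finite ∧
        ((Exceptions K D q η M c X).ncard : ℝ) ≤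
          C * X ^ (2 * (Module.finrank ℚ K : ℝ) / (q : ℝ) - ν) := fun c => (hE c).1
  choose C hC using hC
  have h1 := Pool.Agent.V11326.WCt.countable_primes K
  have h3 := countable_polys (K := K)
  let ι : Type := {p : Finset (HeightOneSpectrum (𝓞 K)) × (Fin 3 → K[X]) // IsMap D q p.2} × ℤ
  let S : ι → Set (Projectivization K (Fin 3 → K)) := fun i =>
    {Q | ∃ (t : Option K) (hx : coordinates D i.1.1.2 t ≠ 0),
      Q = Projectivization.mk K (coordinates D i.1.1.2 t) hx ∧ (∀ j, coordinates D i.1.1.2 t j ≠ 0) ∧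
      M * rad (i.1.1.1 : Set (HeightOneSpectrum (𝓞 K))) (coordinates D i.1.1.2 t) + i.2 ≤
        height (coordinates D i.1.1.2 t)}
  let N : ι → Projectivization K (Fin 3 → K) → ℝ := fun i Q => rad (i.1.1.1 : Set (HeightOneSpectrum (𝓞 K))) Q.rep
  have hrep : ∀ (T : Finset (HeightOneSpectrum (𝓞 K))) (x : Fin 3 → K) (hx : x ≠ 0),
      rad (T : Set (HeightOneSpectrum (𝓞 K))) (Projectivization.mk K x hx).rep =
        rad (T : Set (HeightOneSpectrum (𝓞 K))) x := by
    intro T x hx
    obtain ⟨a, ha⟩ := Projectivization.exists_smul_eq_mk_rep K x hx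
    rw [← ha]
    exact rad_smul _ (a : K) a.ne_zero x
  refine ⟨min (ν / (2 * (Module.finrank ℚ K : ℝ) / q)) 1, lt_min (by positivity) one_pos, min_le_right _ _,
    fun v τ θ hv hτ hvτ hθ => ?_⟩
  obtain ⟨F, hF, hF0, h⟩ := Pool.Agent.V11326.WOD.family (ι := ι) (e := 2 * (Module.finrank ℚ K : ℝ) / q) (ν := ν)
    (by positivity) hν (fun i => C i.2) (fun i X => Exceptions K D q η M i.2 X) (fun i X hX => hC i.2 X hX) S N (by
      rintro ⟨⟨⟨T, P⟩, hP⟩, c⟩
      obtain ⟨B, hB⟩ : ∃ B : ℝ, B = max ((∑ v ∈ T, Real.log (Ideal.absNorm v.asIdeal : ℝ)) / (Module.finrank ℚ K : ℝ))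
          (height (fun i : Fin 3 × Fin (D + 1) => (P i.1).coeff i.2)) := ⟨_, rfl⟩
      refine ⟨Real.exp (B / η), fun X hX Q hQ hN => ?_⟩
      have hX0 : 0 < X := lt_of_lt_of_le (Real.exp_pos _) hX
      have h3 := (Real.le_log_iff_exp_le hX0).2 hX
      rw [div_le_iff₀ hη, mul_comm] at h3
      obtain ⟨t, hx, rfl, h4, h5⟩ := hQ
      have h6 : rad (T : Set (HeightOneSpectrum (𝓞 K))) (Projectivization.mk K (coordinates D P t) hx).rep ≤
        Real.log X := hN
      rw [hrep] at h6
      refine ⟨T, P, ⟨hP.ne_zero, hP.sum_zero, hP.coprime, hP.splits, hP.degree_le, hP.degree_eq, hP.points, ?_, ?_⟩,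
        t, hx, rfl, h4, h6, h5⟩
      · refine le_trans ?_ h3
        rw [hB]
        exact le_max_left _ _
      · refine le_trans ?_ h3
        rw [hB]
        exact le_max_right _ _)
    hv hτ hvτ hθ
  refine ⟨F, hF, hF0, fun β hβ P hP T c => ?_⟩
  obtain ⟨n₀, hn⟩ := (h β hβ (⟨⟨⟨T, P⟩, hP⟩, ⌊c⌋⟩ : ι)).1
  refine ⟨n₀, fun n hnn t ht hw => ?_⟩
  have hx : coordinates D P t ≠ 0 := fun h0 => ht 0 (congrFun h0 0)
  by_contra hcon
  push Not at hcon
  have hfl : (⌊c⌋ : ℝ) ≤ c := Int.floor_le c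
  refine hn n hnn (Projectivization.mk K (coordinates D P t) hx) ?_ ⟨t, hx, rfl, ht, by
    show M * rad (T : Set (HeightOneSpectrum (𝓞 K))) (coordinates D P t) + ((⌊c⌋ : ℤ) : ℝ) ≤ _
    linarith⟩
  show |Real.exp (2 * (Module.finrank ℚ K : ℝ) / q * rad (T : Set (HeightOneSpectrum (𝓞 K)))
    (Projectivization.mk K (coordinates D P t) hx).rep) - β * v n| ≤ (v n) ^ θ
  rw [hrep]
  exact hw

end Pool.Agent.Results.MP_a793bb_nt.ConductorWindows
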