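import Mathlib
import Pool.Agent.H107.AbcNF
import Pool.Agent.V11001.KM.Family

/-!
# The abc conjecture over a number field for the points with heights near the powers of almost every real number

Let `K` be a number field of degree `d` and `ν n` real numbers with `ν n / log n → ∞`, for example `ν n = n`. For almost
every real `x > 1` the abc inequality (with `ε = 0`) holds for ALL points `P = (y : 1 - y : -1)` over `K` with
`|H(P) - x ^ (ν n)| ≤ x ^ (θ ν n)` for some `n`, `θ < 1 - 20 d / 37`.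
-/

set_option autoImplicit false

namespace Pool.Agent.Results.MP_a793bb_nt.HeightsNearPowers

open NumberField IsDedekindDomain Filter

open Pool.Agent.Results.MP_a793bb_nt.ExceptionalPointsNumberFields (height rad)

/-- coordinates of the point `(y : 1 - y : -1)` -/
def pt {K : Type} [Field K] (y : K) : Fin 3 → K := ![y, 1 - y, -1]

/-- the height `H(P) = exp h(P)` of `P = (y : 1 - y : -1)` is in the window of length `2 x ^ (θ ν n)` around
`β x ^ (ν n)` for some `n` -/
def InWindow {K : Type} [Field K] [NumberField K] (ν : ℕ → ℝ) (θ β x : ℝ) (y : K) : Prop :=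
  ∃ n : ℕ, |Real.exp (height (pt y)) - β * x ^ ν n| ≤ x ^ (θ * ν n)

/-- **Theorem.** Let `K` be a number field of degree `d`, `ν n / log n → ∞` and let `B` be a countable set of real
numbers.
(1) For `θ < 1` there is a set `E` of real numbers of Hausdorff dimension at most `(20 d / 37) / (1 - θ)` such that for
each `x > 1` outside `E`, each positive `β` in `B`, each finite set `T` of primes and each real `c₀` all but finitely many
points `P = (y : 1 - y : -1)` over `K` with `y ≠ 0, 1` and with a height in the window of length `2 x ^ (θ ν n)` around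
`β x ^ (ν n)` for some `n` satisfy `rad_T(P) > h(P) + c₀`.
(2) For almost every real `x > 1`, each `θ < 1 - 20 d / 37`, each positive `β` in `B` and each finite set `T` of primes
there is `C` such that ALL points `P = (y : 1 - y : -1)` with `y ≠ 0, 1` and with a height in the window of length
`2 x ^ (θ ν n)` around `β x ^ (ν n)` for some `n` satisfy `h(P) ≤ rad_T(P) + C`. -/
theorem result : ∀ (K : Type) [Field K] [NumberField K] (ν : ℕ → ℝ),
    Tendsto (fun n : ℕ => ν n / Real.log n) atTop atTop → ∀ B : Set ℝ, B.Countable →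
    (∀ θ : ℝ, θ < 1 →
      ∃ E : Set ℝ, dimH E ≤ ENNReal.ofReal ((Module.finrank ℚ K : ℝ) * (20 / 37) / (1 - θ)) ∧
        ∀ x : ℝ, 1 < x → x ∉ E → ∀ β ∈ B, 0 < β → ∀ T : Set (HeightOneSpectrum (𝓞 K)), T.Finite → ∀ c₀ : ℝ,
          {y : K | y ≠ 0 ∧ y ≠ 1 ∧ InWindow ν θ β x y ∧ rad T (pt y) ≤ height (pt y) + c₀}.Finite) ∧
    (∀ᵐ x : ℝ, 1 < x → ∀ θ : ℝ, θ < 1 - (Module.finrank ℚ K : ℝ) * (20 / 37) → ∀ β ∈ B, 0 < β →
      ∀ T : Set (HeightOneSpectrum (𝓞 K)), T.Finite → ∃ C : ℝ, ∀ y : K, y ≠ 0 → y ≠ 1 →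
        InWindow ν θ β x y → height (pt y) ≤ rad T (pt y) + C) := by
  intro K _ _ ν hν B hB
  refine ⟨fun θ hθ => ?_, ?_⟩
  · obtain ⟨E, hE1, hE2⟩ := Pool.Agent.V11001.KM.family (fun y : K => Real.exp (height (pt y))) hν
      (s := (Module.finrank ℚ K : ℝ) * (20 / 37)) (by positivity) hθ B hB (J := Pool.Agent.H107.AbcNF.J K)
      (fun j => Pool.Agent.H107.AbcNF.Exc (j.1 : Set (HeightOneSpectrum (𝓞 K))) j.2)
      (fun j ε hε => Pool.Agent.H107.AbcNF.count _ j.1.finite_toSet _ ε hε)
    refine ⟨E, hE1, fun x hx hxE β hβ hβ0 T hT c₀ => ?_⟩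
    obtain ⟨k, hk⟩ := exists_nat_ge c₀
    refine (hE2 x hx hxE β hβ hβ0 (hT.toFinset, k)).subset ?_
    rintro y ⟨g1, g2, g3, g4⟩
    refine ⟨⟨g1, g2, ?_⟩, g3⟩
    rw [Set.Finite.coe_toFinset]
    exact g4.trans (by simpa [Pool.Agent.H107.AbcNF.pt, pt] using hk)
  · filter_upwards [Pool.Agent.V11001.KM.ae_family (fun y : K => Real.exp (height (pt y))) hν
      (s := (Module.finrank ℚ K : ℝ) * (20 / 37)) (by positivity) B hB (J := Pool.Agent.H107.AbcNF.J K)
      (fun j => Pool.Agent.H107.AbcNF.Exc (j.1 : Set (HeightOneSpectrum (𝓞 K))) j.2)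
      (fun j ε hε => Pool.Agent.H107.AbcNF.count _ j.1.finite_toSet _ ε hε)] with x hx hx1 θ hθ β hβ hβ0 T hT
    have hfin := hx hx1 θ hθ β hβ hβ0 (hT.toFinset, 0)
    obtain ⟨C, hC⟩ := Pool.Agent.V11001.KM.const_of_finite
      {y : K | y ≠ 0 ∧ y ≠ 1 ∧ InWindow ν θ β x y}
      (fun y => height (pt y) - rad T (pt y)) (hfin.subset (by
        rintro y ⟨⟨h1, h2, h3⟩, h4⟩
        have h5 : 0 < height (pt y) - rad T (pt y) := h4
        refine ⟨⟨h1, h2, ?_⟩, h3⟩
        rw [Set.Finite.coe_toFinset]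
        show rad T (pt y) ≤ height (pt y) + ((0 : ℕ) : ℝ)
        push_cast
        linarith))
    refine ⟨C, fun y h1 h2 h3 => ?_⟩
    have h6 : height (pt y) - rad T (pt y) ≤ C := hC y ⟨h1, h2, h3⟩
    linarith

end Pool.Agent.Results.MP_a793bb_nt.HeightsNearPowers
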