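import Mathlib
import Pool.Agent.Results.MP_7aad9f_nt.MultiplesThreeHalves
import Pool.Agent.V11109.MOM.Conv
import Pool.Agent.Y854.GM.Rate
import Pool.Agent.Y854.GM.Win

/-!
# The least radical of an abc triple (over ℚ) whose product is divisible by a term of a sparse sequence

A positive integer `m` is `ε`-regular if the least radical of an abc triple, of whatever height, whose
product is divisible by `m`, lies between `M(m) m ^ (-ε)` and `M(m) m ^ ε`, where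
`M(m) = max (m ^ (3/2), m P(m))` and `P(m)` is the largest prime factor of `m`.

* For every real `p > 1` and all `α > 0` outside a set of Hausdorff dimension smaller than one almost
  all the integers `⌊α j ^ p⌋` are `ε`-regular, for every `ε > 0`, and with a power saving: all
  but `N ^ (1 - δ)` of the `j ≤ N`.
* For every sequence `v` with exponent of convergence at most `τ` and every `α > 0` outside a set of
  Hausdorff dimension at most `(1 - ε / 5 + τ) / (1 - θ)`, for all large `n` ALL the integers `m` with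
  `|m - α v n| ≤ (v n) ^ θ` are `ε`-regular (for instance for `v n = 2 ^ n` or `v n = n!` and all `θ < ε / 5`).
-/

set_option autoImplicit false

namespace Pool.Agent.Results.MP_a793bb_nt.MultiplesAlongSequences

open Finset

open Pool.Agent.Results.MP_7aad9f_nt.MultiplesThreeHalves (Regular M Triple radical largestPrime)
open Pool.Agent.V11109.MOM (cnt cnt_mono)

/-- the exponent of convergence of the sequence `v` is at most `τ` -/
def ExpLe (v : ℕ → ℝ) (τ : ℝ) : Prop := ∀ t : ℝ, τ < t → Summable (fun n : ℕ => (v n) ^ (-t))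

lemma M_nonneg (n : ℕ) : 0 ≤ M n := le_max_of_le_left (by positivity)

lemma regular_mono {ε ε' : ℝ} (h : ε ≤ ε') {n : ℕ} (hn : 1 ≤ n) (hr : Regular ε n) :
    Regular ε' n := by
  have hn1 : (1 : ℝ) ≤ n := by exact_mod_cast hn
  refine ⟨fun a b c ht hd => lt_of_le_of_lt ?_ (hr.1 a b c ht hd), ?_⟩
  · exact mul_le_mul_of_nonneg_left (Real.rpow_le_rpow_of_exponent_le hn1 (by linarith)) (M_nonneg n)
  · obtain ⟨a, b, c, ht, hd, hle⟩ := hr.2
    exact ⟨a, b, c, ht, hd, hle.trans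
      (mul_le_mul_of_nonneg_left (Real.rpow_le_rpow_of_exponent_le hn1 h) (M_nonneg n))⟩

open Classical in
/-- the number of the irregular integers -/
lemma bad_count (ε : ℝ) (hε : 0 < ε) (hε1 : ε ≤ 1) : ∃ C : ℝ, ∀ X : ℕ, 1 ≤ X →
    (((Ioc 0 X).filter (fun t => t ∈ {n : ℕ | 1 ≤ n ∧ ¬ Regular ε n})).card : ℝ) ≤
      C * (X : ℝ) ^ (1 - ε / 5) := by
  obtain ⟨C, hC⟩ := Pool.Agent.Results.MP_7aad9f_nt.MultiplesThreeHalves.result.1 ε hε hε1
  refine ⟨C, fun X hX => le_trans (le_of_eq ?_) (hC X hX)⟩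
  congr 1
  rw [← Set.ncard_coe_finset]
  congr 1
  ext n
  rw [Finset.mem_coe, Finset.mem_filter, Finset.mem_Ioc]
  constructor
  · rintro ⟨⟨_, h2⟩, h3, h4⟩
    exact ⟨h3, h2, h4⟩
  · rintro ⟨h3, h2, h4⟩
    exact ⟨⟨h3, h2⟩, h3, h4⟩

/-- **Main result.** (1) For every real `p > 1` there is a set `A₀` of Hausdorff dimension smaller than
one such that for all `α > 0` outside `A₀` and all `ε > 0` there is `δ > 0` such that for all large `N` at
most `N ^ (1 - δ)` of the positive integers `⌊α j ^ p⌋`, `j ≤ N`, are not `ε`-regular. (2) Let `v ≥ 1` be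
a sequence with exponent of convergence at most `τ`, let `θ < 1` and `0 < ε ≤ 1`. For all `α > 0`
outside a set of Hausdorff dimension at most `(1 - ε / 5 + τ) / (1 - θ)` and all large `n` all the
natural numbers `m` with `|m - α v n| ≤ (v n) ^ θ` are positive and `ε`-regular. -/
theorem result :
    (∀ p : ℝ, 1 < p → ∃ A₀ : Set ℝ, dimH A₀ < 1 ∧ ∀ α : ℝ, 0 < α → α ∉ A₀ → ∀ ε : ℝ, 0 < ε →
      ∃ δ : ℝ, 0 < δ ∧ δ < 1 ∧ ∃ N₀ : ℕ, ∀ N : ℕ, N₀ ≤ N →
        (cnt N (fun j => 1 ≤ ⌊α * (j : ℝ) ^ p⌋₊ ∧ ¬ Regular ε ⌊α * (j : ℝ) ^ p⌋₊) : ℝ) ≤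
          (N : ℝ) ^ (1 - δ)) ∧
    ∀ (v : ℕ → ℝ) (τ θ ε : ℝ), (∀ n, 1 ≤ v n) → 0 ≤ τ → ExpLe v τ → θ < 1 → 0 < ε → ε ≤ 1 →
      ∃ E : Set ℝ, dimH E ≤ ENNReal.ofReal ((1 - ε / 5 + τ) / (1 - θ)) ∧ ∀ α : ℝ, 0 < α → α ∉ E →
        ∃ n₀ : ℕ, ∀ n : ℕ, n₀ ≤ n → ∀ m : ℕ, |(m : ℝ) - α * v n| ≤ (v n) ^ θ →
          1 ≤ m ∧ Regular ε m := by
  classical
  constructor
  · intro p hp
    obtain ⟨A₀, hA₀, h⟩ := Pool.Agent.Y854.GM.sets_pow p hp
      (fun q : ℚ => {n : ℕ | 1 ≤ n ∧ ¬ Regular (q : ℝ) n})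
    refine ⟨A₀, hA₀, fun α hα hαA ε hε => ?_⟩
    obtain ⟨q, hq0, hqε⟩ := exists_rat_btwn (lt_min hε one_pos)
    have hqε' : (q : ℝ) ≤ ε := hqε.le.trans (min_le_left _ _)
    have hq1 : (q : ℝ) ≤ 1 := hqε.le.trans (min_le_right _ _)
    obtain ⟨C, hC⟩ := bad_count q hq0 hq1
    obtain ⟨δ, hδ, hδ1, N₀, hN₀⟩ := h α hα hαA q (q / 5) C (by positivity)
      ⟨1, fun X hX => by
        refine le_trans (le_of_eq ?_) (hC X hX)
        congr 2
        ext t
        simp only [Finset.mem_filter]⟩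
    refine ⟨δ, hδ, hδ1, N₀, fun N hN => ?_⟩
    refine le_trans ?_ (hN₀ N hN)
    have h1 : cnt N (fun j => 1 ≤ ⌊α * (j : ℝ) ^ p⌋₊ ∧ ¬ Regular ε ⌊α * (j : ℝ) ^ p⌋₊) ≤
        cnt N (fun j => ⌊α * (j : ℝ) ^ p⌋₊ ∈ {n : ℕ | 1 ≤ n ∧ ¬ Regular (q : ℝ) n}) :=
      cnt_mono fun j _ hj => ⟨hj.1, fun hr => hj.2 (regular_mono hqε' hj.1 hr)⟩
    refine (Nat.cast_le.2 h1).trans (le_of_eq ?_)
    unfold cnt
    congr 2
  · intro v τ θ ε hv hτ hexp hθ hε hε1
    obtain ⟨C, hC⟩ := bad_count ε hε hε1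
    obtain ⟨E, hE, h⟩ := Pool.Agent.Y854.GM.win_nat {n : ℕ | 1 ≤ n ∧ ¬ Regular ε n} (θ := θ)
      (s := 1 - ε / 5) hv hτ hexp (by linarith) hθ (fun η hη => ⟨|C|, fun X hX => by
        have hX1 : (1 : ℝ) ≤ X := by exact_mod_cast hX
        calc _ ≤ C * (X : ℝ) ^ (1 - ε / 5) := by
              refine le_trans (le_of_eq ?_) (hC X hX)
              congr 2
              ext t
              simp only [Finset.mem_filter]
          _ ≤ |C| * (X : ℝ) ^ (1 - ε / 5) :=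
              mul_le_mul_of_nonneg_right (le_abs_self C) (by positivity)
          _ ≤ |C| * (X : ℝ) ^ (1 - ε / 5 + η) :=
              mul_le_mul_of_nonneg_left (Real.rpow_le_rpow_of_exponent_le hX1 (by linarith))
                (abs_nonneg _)⟩)
    refine ⟨E, hE, fun α hα hαE => ?_⟩
    obtain ⟨n₀, hn₀⟩ := h α hα hαE
    refine ⟨n₀, fun n hn m hm => ?_⟩
    obtain ⟨h1, h2⟩ := hn₀ n hn m hm
    refine ⟨h1, ?_⟩
    by_contra hcon
    exact h2 ⟨h1, hcon⟩

end Pool.Agent.Results.MP_a793bb_nt.MultiplesAlongSequences
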