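import Mathlib
import Pool.Agent.H107.AbcNF

/-!
# The abc conjecture over a number field near a point

Let `K` be a number field of degree `d`. For every embedding of `K` in `ℝ` and almost every real `z` the abc inequality
(with `ε = 0`) holds for ALL points `(y : 1 - y : -1)` over `K` with `|y - z| ≤ H(y) ^ (-σ)`, `σ > 20 d / 37`.
-/

set_option autoImplicit false

namespace Pool.Agent.Results.MP_a793bb_nt.RatiosNearPoints

open NumberField IsDedekindDomain

open Pool.Agent.Results.MP_a793bb_nt.ExceptionalPointsNumberFields (height rad)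
open Pool.Agent.H107.AbcNF (pt)

/-- **Theorem.** Let `K` be a number field of degree `d`.
(1) For every map `φ` of `K` to a metric space `M` (for example to a completion of `K` or to a product of completions)
and each `σ > 0` there is a set `E` of points of `M` of Hausdorff dimension at most `(20 d / 37) / σ` such that for
each `z` outside `E`, each finite set `T` of primes and each real `c₀` all but finitely many points
`P = (y : 1 - y : -1)` over `K` with `y ≠ 0, 1` and `dist (φ y) z ≤ exp (- σ h(P))` satisfy `rad_T(P) > h(P) + c₀`.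
(2) For every embedding `ι` of `K` in `ℝ` and almost every real `z`: for each `σ > 20 d / 37` and each finite set `T` of
primes there is `C` such that ALL points `P = (y : 1 - y : -1)` with `y ≠ 0, 1` and `|ι y - z| ≤ exp (- σ h(P))`
satisfy `h(P) ≤ rad_T(P) + C`. -/
theorem result : ∀ (K : Type) [Field K] [NumberField K],
    (∀ (M : Type) [MetricSpace M] (φ : K → M) (σ : ℝ), 0 < σ →
      ∃ E : Set M, dimH E ≤ ENNReal.ofReal ((Module.finrank ℚ K : ℝ) * (20 / 37) / σ) ∧ ∀ z ∉ E,
        ∀ T : Set (HeightOneSpectrum (𝓞 K)), T.Finite → ∀ c₀ : ℝ,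
          {y : K | y ≠ 0 ∧ y ≠ 1 ∧ dist (φ y) z ≤ Real.exp (-(σ * height (pt y))) ∧
            rad T (pt y) ≤ height (pt y) + c₀}.Finite) ∧
    (∀ ι : K →+* ℝ, ∀ᵐ z : ℝ, ∀ σ : ℝ, (Module.finrank ℚ K : ℝ) * (20 / 37) < σ →
      ∀ T : Set (HeightOneSpectrum (𝓞 K)), T.Finite → ∃ C : ℝ, ∀ y : K, y ≠ 0 → y ≠ 1 →
        |ι y - z| ≤ Real.exp (-(σ * height (pt y))) → height (pt y) ≤ rad T (pt y) + C) := by
  intro K _ _
  refine ⟨fun M _ φ σ hσ => Pool.Agent.H107.AbcNF.approx φ hσ, fun ι => ?_⟩
  filter_upwards [Pool.Agent.H107.AbcNF.approx_ae (K := K) (fun y => ι y)] with z hz σ hσ T hT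
  have hfin := hz σ hσ T hT 0
  obtain ⟨C, hC⟩ := Pool.Agent.H107.ME.const_of_finite
    {y : K | y ≠ 0 ∧ y ≠ 1 ∧ |ι y - z| ≤ Real.exp (-(σ * height (pt y)))}
    (fun y => height (pt y) - rad T (pt y)) (hfin.subset (by
      rintro y ⟨⟨h1, h2, h3⟩, h4⟩
      refine ⟨h1, h2, h3, ?_⟩
      have h5 : 0 < height (pt y) - rad T (pt y) := h4
      show rad T (pt y) ≤ height (pt y) + 0
      linarith))
  refine ⟨C, fun y h1 h2 h3 => ?_⟩
  have h6 : height (pt y) - rad T (pt y) ≤ C := hC y ⟨h1, h2, h3⟩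
  linarith

end Pool.Agent.Results.MP_a793bb_nt.RatiosNearPoints
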